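import Pool.Agent.Q221.PH.Card
import Pool.Agent.Q221.PH.AE

/-!
# Schneider's conjecture along the multiples of almost every real vector

For the families of elliptic curves with sections of the library (`Family d r`): the members with the
parameters `⌊t_n x⌋`, for almost every real vector `x`, for example the truncations of the
expansions of the coordinates of `x` in base `g` (`t_n = g ^ n`).
-/

set_option autoImplicit false

namespace Pool.Agent.Results.MP_3550b5_nt.AlmostEveryDirection

open Pool.Agent.Y732 Pool.Agent.Q221.PH MeasureTheory Filter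

/-- the integer parts of the coordinates of `t x` -/
noncomputable def cell {d : ℕ} (t : ℝ) (x : Fin d → ℝ) : Fin d → ℤ := fun l => ⌊t * x l⌋

/-- The member of the family at `v`: for every canonical `p`-adic height `h`, the regulator of the
`r` marked points `P 0 1, …, P 0 r` has norm larger than `b`, and if the rank of the group of
rational points is `r`, then so has the `p`-adic regulator of the curve: the determinant of the
pairing on any family `c` of independent points which generates the group of rational points modulo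
torsion. -/
def NormAbove {d r : ℕ} (F : Family d r) (v : Fin d → ℤ) (b : ℝ) (p : ℕ) [Fact p.Prime] : Prop :=
  ∀ h : (WQ (F.curve v)).Point → ℚ_[p], IsHeightW p (F.curve v) h →
    b < ‖Reg h (fun i : Fin r => F.P v 0 i.succ)‖ ∧
    (Module.finrank ℤ (WQ (F.curve v)).Point = r →
      ∀ (s : ℕ) (c : Fin s → (WQ (F.curve v)).Point), LinearIndependent ℤ c →
        (∀ Q, ∃ T, IsOfFinAddOrder T ∧ Q - T ∈ Submodule.span ℤ (Set.range c)) →
        b < ‖Reg h c‖)

lemma small_levels {r : ℕ} (hr : 0 < r) {S : Finset ℕ} (hS : ∀ p ∈ S, 5 ≤ p) {y t : ℝ} (hy : 0 ≤ y)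
    (ht : 1 ≤ t) (hSy : ∀ p ∈ S, (p : ℝ) ≤ y) {N : ℕ} (hN : t ≤ N) (j : ℕ → ℕ)
    (hj : ∀ p ∈ S, N ≤ p ^ (j p + r + 1)) :
    ∑ p ∈ S, (p : ℝ) ^ 4 / ((min N (p ^ (j p + r + 1)) : ℕ) : ℝ) ^ ((1 : ℝ) / r) ≤
      y ^ 5 / t ^ ((1 : ℝ) / r) := by
  have h1 : ∀ p ∈ S, (p : ℝ) ^ 4 / ((min N (p ^ (j p + r + 1)) : ℕ) : ℝ) ^ ((1 : ℝ) / r) ≤
      y ^ 4 / t ^ ((1 : ℝ) / r) := by
    intro p hp
    rw [min_eq_left (hj p hp)]
    have h2 := hSy p hp
    gcongr
  refine (Finset.sum_le_sum h1).trans ?_
  rw [Finset.sum_const, nsmul_eq_mul]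
  have hsub : S ⊆ Finset.Ioc 0 ⌊y⌋₊ := by
    intro p hp
    rw [Finset.mem_Ioc]
    have := hS p hp
    exact ⟨by omega, (Nat.le_floor_iff hy).2 (hSy p hp)⟩
  have hcard : (S.card : ℝ) ≤ y := by
    have h2 := Finset.card_le_card hsub
    rw [Nat.card_Ioc, Nat.sub_zero] at h2
    have h4 : ((S.card : ℕ) : ℝ) ≤ (⌊y⌋₊ : ℝ) := by exact_mod_cast h2
    exact h4.trans (Nat.floor_le hy)
  calc (S.card : ℝ) * (y ^ 4 / t ^ ((1 : ℝ) / r)) ≤ y * (y ^ 4 / t ^ ((1 : ℝ) / r)) :=
        mul_le_mul_of_nonneg_right hcard (by positivity)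
    _ = _ := by ring

/-- Let `F` be a family of elliptic curves with `r ≥ 1` sections, in `d` parameters, such that the
height pairing of the sections over the function field is nondegenerate, and let `t n ≥ 1`.

1. If `∑ (y n) ^ 5 / (t n) ^ (1 / r)` converges, then for almost every `x` in `ℝ^d` and all
sufficiently large `n`, if the member at `⌊t_n x⌋` is marked, then for all primes `5 ≤ p ≤ y n` at
which it is ordinary the `p`-adic regulator of the `r` marked points is not zero, and Schneider's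
conjecture holds for it at `p` if its rank is `r`.

2. If `∑ 1 / (t n) ^ (1 / r)` converges and `κ > r`, then for almost every `x` in `ℝ^d`, for all
primes `p ≥ 5` and all sufficiently large `n`, if the member at `⌊t_n x⌋` is marked and ordinary at
`p`, then the `p`-adic absolute values of the `p`-adic regulator of the `r` marked points and, if the
rank is `r`, of the `p`-adic regulator of the curve are larger than `n ^ (-κ)`. -/
theorem result :
    (∀ (d r : ℕ) (F : Family d r), 0 < r → F.K.det ≠ 0 → ∀ t y : ℕ → ℝ, (∀ n, 1 ≤ t n) →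
      (∀ n, 0 ≤ y n) → (Summable fun n => (y n) ^ 5 / (t n) ^ ((1 : ℝ) / r)) →
      ∀ᵐ x : Fin d → ℝ, ∀ᶠ n in atTop, F.Marked (cell (t n) x) →
        ∀ (p : ℕ) [Fact p.Prime], 5 ≤ p → (p : ℝ) ≤ y n →
          IsOrdinaryW p (F.curve (cell (t n) x)) → F.NonDeg (cell (t n) x) p) ∧
    (∀ (d r : ℕ) (F : Family d r), 0 < r → F.K.det ≠ 0 → ∀ t : ℕ → ℝ, (∀ n, 1 ≤ t n) →
      (Summable fun n => 1 / (t n) ^ ((1 : ℝ) / r)) → ∀ κ : ℝ, (r : ℝ) < κ →
      ∀ᵐ x : Fin d → ℝ, ∀ (p : ℕ) [Fact p.Prime], 5 ≤ p → ∀ᶠ n : ℕ in atTop,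
        F.Marked (cell (t n) x) → IsOrdinaryW p (F.curve (cell (t n) x)) →
          NormAbove F (cell (t n) x) ((n : ℝ) ^ (-κ)) p) := by
  classical
  refine ⟨?_, ?_⟩
  · intro d r F hr hK t y ht hy hs
    obtain ⟨C, hC⟩ : ∃ C : ℝ, C = 2 ^ d * r * |(F.K.det : ℝ)| := ⟨_, rfl⟩
    have hC0 : 0 ≤ C := by
      rw [hC]
      positivity
    have ht0 : ∀ n, (0 : ℝ) < t n := fun n => by linarith [ht n]
    have key := ae_floor t ht (fun n v => F.Marked v ∧ ∃ p : ℕ, 5 ≤ p ∧ (p : ℝ) ≤ y n ∧
        ∃ _ : Fact p.Prime, IsOrdinaryW p (F.curve v) ∧ ¬ F.NonDeg v p)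
      (fun n => C * ((y n) ^ 5 / (t n) ^ ((1 : ℝ) / r)))
      (fun n => by have := hy n; have := ht0 n; positivity) (hs.mul_left C) (by
        intro n c N hN Z hZ
        have hN0 : 0 < N := by
          have h1 : (0 : ℝ) < N := (ht0 n).trans_le hN
          exact_mod_cast h1
        obtain ⟨S, hSdef⟩ : ∃ S : Finset ℕ, S = (Finset.range (⌊y n⌋₊ + 1)).filter fun p =>
          p.Prime ∧ 5 ≤ p := ⟨_, rfl⟩
        have hS : ∀ p ∈ S, p.Prime ∧ 5 ≤ p := by
          intro p hp
          rw [hSdef, Finset.mem_filter] at hp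
          exact hp.2
        have hSy : ∀ p ∈ S, (p : ℝ) ≤ y n := by
          intro p hp
          rw [hSdef, Finset.mem_filter, Finset.mem_range] at hp
          exact (Nat.le_floor_iff (hy n)).1 (by omega)
        have hcb := big_card F hr hK S (fun _ => N) hS c (fun _ => N) N hN0 (fun _ => le_rfl) Z (by
          intro v hv
          obtain ⟨hb, hm, p, hp5, hpy, hp, ho, hn⟩ := hZ v hv
          refine ⟨hb, hm, p, ?_, hp, ho, ?_⟩
          · rw [hSdef, Finset.mem_filter, Finset.mem_range]
            exact ⟨Nat.lt_succ_of_le ((Nat.le_floor_iff (hy n)).2 hpy), hp.out, hp5⟩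
          · intro hbig
            apply hn
            intro h hh
            obtain ⟨h1, h2⟩ := hbig h hh
            have h3 : Reg h (fun i : Fin r => F.P v 0 i.succ) ≠ 0 := by
              intro h0
              rw [h0, norm_zero] at h1
              have hp0 : (0 : ℝ) < p := by exact_mod_cast hp.out.pos
              have : 0 < ((p : ℝ)⁻¹) ^ N := by positivity
              linarith
            exact ⟨h3, fun hrank s c hc hmax => Reg_ne_zero hh.1 hr h3 hrank hc hmax⟩)
        refine hcb.trans ?_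
        have hj : ∀ p ∈ S, N ≤ p ^ (N + r + 1) := by
          intro p hp
          have h1 : 1 < p := by
            have := (hS p hp).2
            omega
          exact (Nat.lt_pow_self h1).le.trans (Nat.pow_le_pow_right (by omega) (by omega))
        have hsum := small_levels hr (fun p hp => (hS p hp).2) (hy n) (ht n) hSy hN (fun _ => N) hj
        rw [Finset.prod_const, Finset.card_univ, Fintype.card_fin, ← hC]
        exact mul_le_mul_of_nonneg_right (mul_le_mul_of_nonneg_left hsum hC0) (by positivity))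
    filter_upwards [key] with x hx
    filter_upwards [hx] with n hn hm p hp hp5 hpy ho
    by_contra hnd
    exact hn ⟨hm, p, hp5, hpy, hp, ho, hnd⟩
  · intro d r F hr hK t ht hs κ hκ
    obtain ⟨C, hC⟩ : ∃ C : ℝ, C = 2 ^ d * r * |(F.K.det : ℝ)| := ⟨_, rfl⟩
    have hC0 : 0 ≤ C := by
      rw [hC]
      positivity
    have ht0 : ∀ n, (0 : ℝ) < t n := fun n => by linarith [ht n]
    have hr0 : (0 : ℝ) < r := by exact_mod_cast hr
    have hκ0 : 0 < κ := hr0.trans hκ
    rw [ae_all_iff]
    intro p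
    by_cases hpp : p.Prime
    swap
    · filter_upwards with x hp
      exact absurd hp.out hpp
    have hF : Fact p.Prime := ⟨hpp⟩
    by_cases hp5 : 5 ≤ p
    swap
    · filter_upwards with x _ h5
      exact absurd h5 hp5
    have hp0 : (0 : ℝ) < p := by exact_mod_cast hpp.pos
    have hp1 : (1 : ℝ) < p := by exact_mod_cast hpp.one_lt
    -- the levels
    have hlev : ∀ n : ℕ, 1 ≤ n → ∃ j : ℕ, (p : ℝ) ^ j ≤ (n : ℝ) ^ κ ∧ (n : ℝ) ^ κ < (p : ℝ) ^ (j + 1) := by
      intro n hn
      have h1 : (1 : ℝ) ≤ (n : ℝ) ^ κ := Real.one_le_rpow (by exact_mod_cast hn) hκ0.le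
      obtain ⟨j, hj1, hj2⟩ := exists_nat_pow_near h1 hp1
      exact ⟨j, hj1, hj2⟩
    have hlev' : ∀ n : ℕ, ∃ j : ℕ, 1 ≤ n → (p : ℝ) ^ j ≤ (n : ℝ) ^ κ ∧
        (n : ℝ) ^ κ < (p : ℝ) ^ (j + 1) := by
      intro n
      by_cases hn : 1 ≤ n
      · obtain ⟨j, hj⟩ := hlev n hn
        exact ⟨j, fun _ => hj⟩
      · exact ⟨0, fun h => absurd h hn⟩
    choose j hj using hlev'
    have hsn : Summable fun n : ℕ => 1 / (n : ℝ) ^ (κ / r) :=
      Real.summable_one_div_nat_rpow.2 ((one_lt_div hr0).2 hκ)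
    have hsum2 : Summable fun n : ℕ => C * ((p : ℝ) ^ 4 * (1 / (t n) ^ ((1 : ℝ) / r) +
        1 / (n : ℝ) ^ (κ / r))) + if n = 0 then 1 else 0 := by
      refine Summable.add ((hs.add hsn).mul_left _ |>.mul_left C) ?_
      exact summable_of_ne_finset_zero (s := {0}) fun n hn => by
        rw [Finset.mem_singleton] at hn
        rw [if_neg hn]
    have key := ae_floor t ht (fun n v => F.Marked v ∧ IsOrdinaryW p (F.curve v) ∧
        ¬ Big F v (j n) p)
      (fun n => C * ((p : ℝ) ^ 4 * (1 / (t n) ^ ((1 : ℝ) / r) + 1 / (n : ℝ) ^ (κ / r))) +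
        if n = 0 then 1 else 0)
      (fun n => by have := ht0 n; split_ifs <;> positivity) hsum2 (by
        intro n c N hN Z hZ
        have hN0 : 0 < N := by
          have h1 : (0 : ℝ) < N := (ht0 n).trans_le hN
          exact_mod_cast h1
        rcases Nat.eq_zero_or_pos n with hn0 | hn0
        · rw [if_pos hn0]
          have h1 : (Z.card : ℝ) ≤ (N : ℝ) ^ d := by
            have h2 := box_card c (fun _ => N) Z (fun v hv => (hZ v hv).1)
            rw [Finset.prod_const, Finset.card_univ, Fintype.card_fin] at h2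
            exact_mod_cast h2
          have h2 : (0 : ℝ) ≤ C * ((p : ℝ) ^ 4 * (1 / (t n) ^ ((1 : ℝ) / r) +
              1 / (n : ℝ) ^ (κ / r))) := by
            have := ht0 n
            positivity
          have h3 : (0 : ℝ) ≤ (N : ℝ) ^ d := by positivity
          nlinarith
        rw [if_neg hn0.ne', add_zero]
        have hnpos : (0 : ℝ) < n := by exact_mod_cast hn0
        have hcb := big_card F hr hK {p} (fun _ => j n) (by
            intro q hq
            rw [Finset.mem_singleton] at hq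
            rw [hq]
            exact ⟨hpp, hp5⟩) c (fun _ => N) N hN0 (fun _ => le_rfl) Z (by
          intro v hv
          obtain ⟨hb, hm, ho, hn⟩ := hZ v hv
          exact ⟨hb, hm, p, Finset.mem_singleton_self p, hF, ho, hn⟩)
        refine hcb.trans ?_
        rw [Finset.prod_const, Finset.card_univ, Fintype.card_fin, ← hC, Finset.sum_singleton]
        apply mul_le_mul_of_nonneg_right _ (by positivity)
        apply mul_le_mul_of_nonneg_left _ hC0
        have g1 : (0 : ℝ) < (t n) ^ ((1 : ℝ) / r) := Real.rpow_pos_of_pos (ht0 n) _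
        have g2 : (0 : ℝ) < (n : ℝ) ^ (κ / r) := Real.rpow_pos_of_pos hnpos _
        rcases min_choice N (p ^ (j n + r + 1)) with h | h
        · rw [h]
          have h1 : (t n) ^ ((1 : ℝ) / r) ≤ (N : ℝ) ^ ((1 : ℝ) / r) :=
            Real.rpow_le_rpow (ht0 n).le hN (by positivity)
          have h2 : (p : ℝ) ^ 4 / (N : ℝ) ^ ((1 : ℝ) / r) ≤ (p : ℝ) ^ 4 / (t n) ^ ((1 : ℝ) / r) :=
            div_le_div_of_nonneg_left (by positivity) g1 h1
          refine h2.trans ?_
          have h3 : (0 : ℝ) ≤ (p : ℝ) ^ 4 * (1 / (n : ℝ) ^ (κ / r)) := by positivity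
          rw [mul_add, mul_one_div]
          linarith
        · rw [h]
          have h1 : (n : ℝ) ^ (κ / r) ≤ ((p ^ (j n + r + 1) : ℕ) : ℝ) ^ ((1 : ℝ) / r) := by
            have h2 : (n : ℝ) ^ κ ≤ ((p ^ (j n + r + 1) : ℕ) : ℝ) := by
              push_cast
              refine (hj n hn0).2.le.trans ?_
              exact pow_le_pow_right₀ hp1.le (by omega)
            have h3 : (n : ℝ) ^ (κ / r) = ((n : ℝ) ^ κ) ^ ((1 : ℝ) / r) := by
              rw [← Real.rpow_mul hnpos.le]
              congr 1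
              ring
            rw [h3]
            exact Real.rpow_le_rpow (by positivity) h2 (by positivity)
          have h2 : (p : ℝ) ^ 4 / ((p ^ (j n + r + 1) : ℕ) : ℝ) ^ ((1 : ℝ) / r) ≤
              (p : ℝ) ^ 4 / (n : ℝ) ^ (κ / r) :=
            div_le_div_of_nonneg_left (by positivity) g2 h1
          refine h2.trans ?_
          have h3 : (0 : ℝ) ≤ (p : ℝ) ^ 4 * (1 / (t n) ^ ((1 : ℝ) / r)) := by positivity
          rw [mul_add, mul_one_div ((p : ℝ) ^ 4) ((n : ℝ) ^ (κ / r))]
          linarith)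
    filter_upwards [key] with x hx _ _
    filter_upwards [hx, eventually_ge_atTop 1] with n hn hn1 hm ho
    have hbig : Big F (cell (t n) x) (j n) p := by
      by_contra hnb
      exact hn ⟨hm, ho, hnb⟩
    have hle : (n : ℝ) ^ (-κ) ≤ ((p : ℝ)⁻¹) ^ (j n) := by
      rw [Real.rpow_neg (Nat.cast_nonneg n), inv_pow]
      exact inv_anti₀ (by positivity) (hj n hn1).1
    intro h hh
    obtain ⟨h1, h2⟩ := hbig h hh
    exact ⟨hle.trans_lt h1, fun hrank s c hc hmax => hle.trans_lt (h2 hrank s c hc hmax)⟩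

end Pool.Agent.Results.MP_3550b5_nt.AlmostEveryDirection
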