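import Pool.Agent.Q221.PH.Tw2

/-!
# Schneider's conjecture for the quadratic twists of an arbitrary elliptic curve

Let `E : y² = x³ + a x + b` be an elliptic curve with integral coefficients. For integers `m` and `n`
put `g = m³ + a m n² + b n³` and `D = n g`; the twist `E_D : y² = x³ + a D² x + b D³` has the rational
point `P = (m g, g²)`. For almost all admissible pairs `(m, n)` the canonical `p`-adic height of this
point is not zero, and of bounded valuation, for all ordinary primes of a growing range at once.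
-/

set_option autoImplicit false

namespace Pool.Agent.Results.MP_3550b5_nt.QuadraticTwists

open Pool.Agent.Y732 Pool.Agent.Q221.PH Finset

/-- the value at `(m, n)` of the form `m³ + a m n² + b n³` -/
def form (a b m n : ℤ) : ℤ := m ^ 3 + a * m * n ^ 2 + b * n ^ 3

/-- the curve `y² = x³ + a D² x + b D³` for `D = n (m³ + a m n² + b n³)` -/
def twist (a b m n : ℤ) : WeierstrassCurve ℤ :=
  ⟨0, 0, 0, a * (n * form a b m n) ^ 2, b * (n * form a b m n) ^ 3⟩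

/-- `m` and `n` are coprime, `D ≠ 0`, and `n` is divisible by all primes that divide
`2 (4 a³ + 27 b²)`. -/
def Admissible (a b m n : ℤ) : Prop :=
  IsCoprime m n ∧ n * form a b m n ≠ 0 ∧
    ∀ l : ℕ, l.Prime → (l : ℤ) ∣ 2 * (4 * a ^ 3 + 27 * b ^ 2) → (l : ℤ) ∣ n

/-- For every canonical `p`-adic height `h` of the twist, the value of `h` at the point
`(m g, g²)` has norm larger than `p ^ (-j)`, and if the rank is one, then so has the `p`-adic
regulator: the determinant of the height pairing on any family `c` of independent points which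
generates the group of rational points modulo torsion. -/
def ValuationBelow (a b m n : ℤ) (j p : ℕ) [Fact p.Prime] : Prop :=
  ∀ h : (WQ (twist a b m n)).Point → ℚ_[p], IsHeightW p (twist a b m n) h →
    (∀ hP : (WQ (twist a b m n)).Nonsingular ((m * form a b m n : ℤ) : ℚ)
        ((form a b m n ^ 2 : ℤ) : ℚ), ((p : ℝ)⁻¹) ^ j < ‖h (.some _ _ hP)‖) ∧
    (Module.finrank ℤ (WQ (twist a b m n)).Point = 1 →
      ∀ (s : ℕ) (c : Fin s → (WQ (twist a b m n)).Point), LinearIndependent ℤ c →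
        (∀ Q, ∃ T, IsOfFinAddOrder T ∧ Q - T ∈ Submodule.span ℤ (Set.range c)) →
        ((p : ℝ)⁻¹) ^ j < ‖Reg h c‖)

lemma valuation_of_big {a b m n : ℤ} (hD : n * form a b m n ≠ 0) {j p : ℕ}
    [hp : Fact p.Prime] (hp5 : 5 ≤ p) (hb : Big (twF a b) ![m, n] j p) :
    ValuationBelow a b m n j p := by
  have hcurve : (twF a b).curve ![m, n] = twist a b m n := twF_curve a b ![m, n]
  have hpt : ∀ h : (WQ ((twF a b).curve ![m, n])).Point → ℚ_[p],
      IsHeightW p ((twF a b).curve ![m, n]) h →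
      ((p : ℝ)⁻¹) ^ j < ‖Reg h (fun i : Fin 1 => (twF a b).P ![m, n] 0 i.succ)‖ ∧
    (Module.finrank ℤ (WQ ((twF a b).curve ![m, n])).Point = 1 →
      ∀ (s : ℕ) (c : Fin s → (WQ ((twF a b).curve ![m, n])).Point), LinearIndependent ℤ c →
        (∀ Q, ∃ T, IsOfFinAddOrder T ∧ Q - T ∈ Submodule.span ℤ (Set.range c)) →
        ((p : ℝ)⁻¹) ^ j < ‖Reg h c‖) := hb
  have hPdef : ∀ i : Fin 1, (twF a b).P ![m, n] 0 i.succ =
      pt ((twF a b).curve ![m, n]) (xf a b m n) (yf a b m n) 2 := by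
    intro i
    unfold Family.P
    rw [twF_x, twF_y, twF_e]
    rfl
  simp only [hPdef] at hpt
  rw [hcurve] at hpt
  intro h hh
  obtain ⟨h1, h2⟩ := hpt h hh
  refine ⟨fun hP => ?_, h2⟩
  have h3 := two_P (a := a) (b := b) (m := m) (n := n) hD hP
  rw [← Reg_double hp5 hh.1 (.some _ _ hP)
    (fun _ : Fin 1 => pt (twist a b m n) (xf a b m n) (yf a b m n) 2) h3]
  exact h1

open scoped Classical in
/-- Let `a` and `b` be integers with `4 a³ + 27 b² ≠ 0`.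

0. For all admissible `(m, n)` the twist is an elliptic curve with the rational point `(m g, g²)`.

1. Let `S` be a finite set of primes `p ≥ 5`, and let a level `j p` be given for each of them. In
every box `[c₁, c₁ + N₁) × [c₂, c₂ + N₂)` with `N₁, N₂ ≥ N₀ ≥ 1`, the number of the admissible pairs
such that for some `p` in `S` the twist is ordinary at `p` and has a height of the point, or, in the
case of the rank one, a `p`-adic regulator, of valuation at least `j p`, is at most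
`16 ∑_{p ∈ S} p ^ 4 / min(N₀, p ^ (j p + 2)) N₁ N₂`.

2. For every `ε > 0` there are `J` and `δ > 0` such that in every such box for all admissible pairs,
with at most `ε N₁ N₂` exceptions, the heights of the point and, in the case of the rank one, the
`p`-adic regulators have valuations smaller than `J`, for all primes `5 ≤ p ≤ δ N₀ ^ (1 / 5)` at
which the twist is ordinary at once. -/
theorem result (a b : ℤ) (hab : 4 * a ^ 3 + 27 * b ^ 2 ≠ 0) :
    (∀ m n : ℤ, Admissible a b m n → (twist a b m n).Δ ≠ 0 ∧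
      (WQ (twist a b m n)).Nonsingular ((m * form a b m n : ℤ) : ℚ)
        ((form a b m n ^ 2 : ℤ) : ℚ)) ∧
    (∀ (S : Finset ℕ) (j : ℕ → ℕ), (∀ p ∈ S, p.Prime ∧ 5 ≤ p) →
      ∀ (c₁ c₂ : ℤ) (N₁ N₂ N₀ : ℕ), 0 < N₀ → N₀ ≤ N₁ → N₀ ≤ N₂ →
        (((Ico c₁ (c₁ + N₁) ×ˢ Ico c₂ (c₂ + N₂)).filter fun v : ℤ × ℤ =>
          Admissible a b v.1 v.2 ∧ ∃ p ∈ S, ∃ _ : Fact p.Prime,
            IsOrdinaryW p (twist a b v.1 v.2) ∧ ¬ ValuationBelow a b v.1 v.2 (j p) p).card : ℝ) ≤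
          16 * (∑ p ∈ S, (p : ℝ) ^ 4 / (min N₀ (p ^ (j p + 2)) : ℕ)) * (N₁ * N₂)) ∧
    (∀ ε : ℝ, 0 < ε → ∃ (J : ℕ) (δ : ℝ), 0 < δ ∧
      ∀ (c₁ c₂ : ℤ) (N₁ N₂ N₀ : ℕ), 0 < N₀ → N₀ ≤ N₁ → N₀ ≤ N₂ →
        (((Ico c₁ (c₁ + N₁) ×ˢ Ico c₂ (c₂ + N₂)).filter fun v : ℤ × ℤ =>
          Admissible a b v.1 v.2 ∧ ∃ p : ℕ, 5 ≤ p ∧ (p : ℝ) ≤ δ * (N₀ : ℝ) ^ ((1 : ℝ) / 5) ∧
            ∃ _ : Fact p.Prime, IsOrdinaryW p (twist a b v.1 v.2) ∧
              ¬ ValuationBelow a b v.1 v.2 J p).card : ℝ) ≤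
          ε * (N₁ * N₂)) := by
  have key : ∀ (S : Finset ℕ) (j : ℕ → ℕ), (∀ p ∈ S, p.Prime ∧ 5 ≤ p) →
      ∀ (c₁ c₂ : ℤ) (N₁ N₂ N₀ : ℕ), 0 < N₀ → N₀ ≤ N₁ → N₀ ≤ N₂ → ∀ Z : Finset (ℤ × ℤ),
        (∀ v ∈ Z, v ∈ Ico c₁ (c₁ + N₁) ×ˢ Ico c₂ (c₂ + N₂) ∧
          Admissible a b v.1 v.2 ∧ ∃ p ∈ S, ∃ _ : Fact p.Prime,
            IsOrdinaryW p (twist a b v.1 v.2) ∧ ¬ ValuationBelow a b v.1 v.2 (j p) p) →
        (Z.card : ℝ) ≤
          16 * (∑ p ∈ S, (p : ℝ) ^ 4 / (min N₀ (p ^ (j p + 2)) : ℕ)) * (N₁ * N₂) := by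
    intro S j hS c₁ c₂ N₁ N₂ N₀ hN₀ h₁ h₂ Z hZ
    have hinj : Function.Injective fun v : ℤ × ℤ => (![v.1, v.2] : Fin 2 → ℤ) := by
      intro v v' h
      have e1 := congrFun h 0
      have e2 := congrFun h 1
      exact Prod.ext e1 e2
    have h := big_card (twF a b) one_pos (by rw [twF_K]; norm_num) S j hS ![c₁, c₂] ![N₁, N₂] N₀ hN₀
      (by
        intro l
        fin_cases l
        · exact h₁
        · exact h₂) (Z.image fun v : ℤ × ℤ => (![v.1, v.2] : Fin 2 → ℤ)) (by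
        intro v hv
        obtain ⟨w, hw, rfl⟩ := mem_image.1 hv
        obtain ⟨hb, hA, p, hpS, hp, ho, hn⟩ := hZ w hw
        rw [mem_product, mem_Ico, mem_Ico] at hb
        refine ⟨?_, ?_, p, hpS, hp, ?_, ?_⟩
        · intro l
          fin_cases l
          · exact hb.1
          · exact hb.2
        · exact marked_of_good hab hA
        · rw [twF_curve]
          exact ho
        · intro hbig
          exact hn (valuation_of_big hA.2.1 (hS p hpS).2 hbig))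
    rw [card_image_of_injective _ hinj, twF_K, Fin.prod_univ_two] at h
    refine h.trans (le_of_eq ?_)
    have e1 : ∀ p ∈ S, (p : ℝ) ^ 4 / ((min N₀ (p ^ (j p + 1 + 1)) : ℕ) : ℝ) ^ ((1 : ℝ) / ((1 : ℕ) : ℝ)) =
        (p : ℝ) ^ 4 / (min N₀ (p ^ (j p + 2)) : ℕ) := by
      intro p _
      rw [Nat.cast_one, div_one, Real.rpow_one]
    rw [sum_congr rfl e1]
    have e2 : (2 : ℝ) ^ 2 * ((1 : ℕ) : ℝ) * |((4 : ℤ) : ℝ)| = 16 := by norm_num
    rw [e2]
    rfl
  refine ⟨?_, ?_, ?_⟩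
  · intro m n hA
    have hd : n * form a b m n ≠ 0 := hA.2.1
    have hΔ : (twist a b m n).Δ ≠ 0 := by
      have h1 := Tw_disc a b (n * form a b m n)
      have h2 : (twist a b m n).Δ = -16 * (4 * a ^ 3 + 27 * b ^ 2) * (n * form a b m n) ^ 6 := h1
      rw [h2]
      exact mul_ne_zero (mul_ne_zero (by norm_num) hab) (pow_ne_zero _ hd)
    refine ⟨hΔ, ?_⟩
    have hOn : OnCurve (twist a b m n) (m * form a b m n) (form a b m n ^ 2) 1 := by
      simp only [OnCurve, twist, form]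
      ring
    have h1 := triple_rat hOn hΔ one_ne_zero
    rw [Int.cast_one, one_pow, one_pow, div_one, div_one] at h1
    exact h1
  · intro S j hS c₁ c₂ N₁ N₂ N₀ hN₀ h₁ h₂
    exact key S j hS c₁ c₂ N₁ N₂ N₀ hN₀ h₁ h₂ _ (fun v hv => mem_filter.1 hv)
  · intro ε hε
    obtain ⟨M, hM⟩ := exists_pow_lt_of_lt_one (show 0 < ε / 32 by positivity)
      (show (1 / 5 : ℝ) < 1 by norm_num)
    obtain ⟨δ, hδ, hδ5⟩ : ∃ δ : ℝ, 0 < δ ∧ δ ^ 5 ≤ ε / 32 := by
      refine ⟨min 1 (ε / 32), lt_min one_pos (by positivity), ?_⟩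
      have h1 : min 1 (ε / 32) ≤ 1 := min_le_left _ _
      have h0 : 0 ≤ min 1 (ε / 32) := le_min zero_le_one (by positivity)
      exact (pow_le_of_le_one h0 h1 (by norm_num)).trans (min_le_right _ _)
    refine ⟨M + 4, δ, hδ, ?_⟩
    intro c₁ c₂ N₁ N₂ N₀ hN₀ h₁ h₂
    have hN0 : (0 : ℝ) < (N₀ : ℝ) := by exact_mod_cast hN₀
    obtain ⟨y, hy⟩ : ∃ y : ℝ, y = δ * (N₀ : ℝ) ^ ((1 : ℝ) / 5) := ⟨_, rfl⟩
    have hy0 : 0 ≤ y := by
      rw [hy]
      positivity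
    obtain ⟨S, hSdef⟩ : ∃ S : Finset ℕ, S = (Finset.range (⌊y⌋₊ + 1)).filter fun p =>
      p.Prime ∧ 5 ≤ p := ⟨_, rfl⟩
    have hS : ∀ p ∈ S, p.Prime ∧ 5 ≤ p := by
      intro p hp
      rw [hSdef, mem_filter] at hp
      exact hp.2
    have hSy : ∀ p ∈ S, (p : ℝ) ≤ y := by
      intro p hp
      rw [hSdef, mem_filter, mem_range] at hp
      exact (Nat.le_floor_iff hy0).1 (by omega)
    have hk := key S (fun _ => M + 4) hS c₁ c₂ N₁ N₂ N₀ hN₀ h₁ h₂
      ((Ico c₁ (c₁ + N₁) ×ˢ Ico c₂ (c₂ + N₂)).filter fun v : ℤ × ℤ =>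
          Admissible a b v.1 v.2 ∧ ∃ p : ℕ, 5 ≤ p ∧ (p : ℝ) ≤ δ * (N₀ : ℝ) ^ ((1 : ℝ) / 5) ∧
            ∃ _ : Fact p.Prime, IsOrdinaryW p (twist a b v.1 v.2) ∧
              ¬ ValuationBelow a b v.1 v.2 (M + 4) p) (by
        intro v hv
        rw [mem_filter] at hv
        obtain ⟨hb, hm, p, hp5, hpy, hp, ho, hn⟩ := hv
        refine ⟨hb, hm, p, ?_, hp, ho, hn⟩
        rw [hSdef, mem_filter, mem_range]
        rw [← hy] at hpy
        exact ⟨Nat.lt_succ_of_le ((Nat.le_floor_iff hy0).2 hpy), hp.out, hp5⟩)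
    refine hk.trans ?_
    apply mul_le_mul_of_nonneg_right _ (by positivity)
    -- the sum over the primes
    have hterm : ∀ p ∈ S, (p : ℝ) ^ 4 / (min N₀ (p ^ (M + 4 + 2)) : ℕ) ≤
        y ^ 4 / N₀ + (1 / 5) ^ M * ((p : ℝ) ^ 2)⁻¹ := by
      intro p hp
      have hp5 : (5 : ℝ) ≤ p := by exact_mod_cast (hS p hp).2
      have hp0 : (0 : ℝ) < p := by linarith
      have hpy := hSy p hp
      have t1 : (0 : ℝ) ≤ y ^ 4 / N₀ := by positivity
      have t2 : (0 : ℝ) ≤ (1 / 5) ^ M * ((p : ℝ) ^ 2)⁻¹ := by positivity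
      rcases min_choice N₀ (p ^ (M + 4 + 2)) with h | h
      · rw [h]
        have : (p : ℝ) ^ 4 / N₀ ≤ y ^ 4 / N₀ := by gcongr
        linarith
      · rw [h]
        push_cast
        have h6 : (p : ℝ) ^ 4 / (p : ℝ) ^ (M + 4 + 2) = ((p : ℝ)⁻¹) ^ M * ((p : ℝ) ^ 2)⁻¹ := by
          rw [pow_add _ (M + 4), pow_add _ M, inv_pow]
          field_simp
        have h7 : ((p : ℝ)⁻¹) ^ M ≤ (1 / 5) ^ M := by
          apply pow_le_pow_left₀ (by positivity)
          rw [one_div]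
          exact inv_anti₀ (by norm_num) hp5
        have h8 : ((p : ℝ)⁻¹) ^ M * ((p : ℝ) ^ 2)⁻¹ ≤ (1 / 5) ^ M * ((p : ℝ) ^ 2)⁻¹ :=
          mul_le_mul_of_nonneg_right h7 (by positivity)
        rw [h6]
        linarith
    have hsum : ∑ p ∈ S, (p : ℝ) ^ 4 / (min N₀ (p ^ (M + 4 + 2)) : ℕ) ≤
        y ^ 5 / N₀ + (1 / 5) ^ M := by
      refine (sum_le_sum hterm).trans ?_
      rw [sum_add_distrib, ← mul_sum, sum_const, nsmul_eq_mul]
      have hsub : S ⊆ Finset.Ioc 4 ⌊y⌋₊ := by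
        intro p hp
        rw [Finset.mem_Ioc]
        exact ⟨(hS p hp).2, (Nat.le_floor_iff hy0).2 (hSy p hp)⟩
      have hcard : (S.card : ℝ) ≤ y := by
        have h2 := card_le_card hsub
        rw [Nat.card_Ioc] at h2
        have h3 : S.card ≤ ⌊y⌋₊ := h2.trans (Nat.sub_le _ _)
        have h4 : ((S.card : ℕ) : ℝ) ≤ (⌊y⌋₊ : ℝ) := by exact_mod_cast h3
        exact h4.trans (Nat.floor_le hy0)
      have hsq : ∑ p ∈ S, ((p : ℝ) ^ 2)⁻¹ ≤ 1 := by
        rcases S.eq_empty_or_nonempty with h0 | ⟨q, hq⟩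
        · rw [h0, sum_empty]
          exact zero_le_one
        have h2 : ∑ p ∈ S, ((p : ℝ) ^ 2)⁻¹ ≤ ∑ p ∈ Finset.Ioc 4 ⌊y⌋₊, ((p : ℝ) ^ 2)⁻¹ :=
          sum_le_sum_of_subset_of_nonneg hsub fun _ _ _ => by positivity
        have h4 : 4 ≤ ⌊y⌋₊ := by
          have := Finset.mem_Ioc.1 (hsub hq)
          omega
        have h3 := sum_Ioc_inv_sq_le_sub (α := ℝ) (k := 4) (n := ⌊y⌋₊) (by norm_num) h4
        have h5 : (0 : ℝ) ≤ ((⌊y⌋₊ : ℕ) : ℝ)⁻¹ := by positivity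
        push_cast at h3
        have : ((4 : ℝ))⁻¹ ≤ 1 := by norm_num
        linarith
      have a1 : (S.card : ℝ) * (y ^ 4 / N₀) ≤ y ^ 5 / N₀ := by
        calc (S.card : ℝ) * (y ^ 4 / N₀) ≤ y * (y ^ 4 / N₀) :=
              mul_le_mul_of_nonneg_right hcard (by positivity)
          _ = _ := by ring
      have a2 : (1 / 5 : ℝ) ^ M * ∑ p ∈ S, ((p : ℝ) ^ 2)⁻¹ ≤ (1 / 5) ^ M * 1 :=
        mul_le_mul_of_nonneg_left hsq (by positivity)
      linarith
    have hyN : y ^ 5 / N₀ = δ ^ 5 := by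
      have h1 : ((N₀ : ℝ) ^ ((1 : ℝ) / 5)) ^ 5 = (N₀ : ℝ) := by
        rw [← Real.rpow_natCast ((N₀ : ℝ) ^ ((1 : ℝ) / 5)) 5, ← Real.rpow_mul hN0.le]
        norm_num
      rw [hy, mul_pow, h1]
      field_simp
    rw [hyN] at hsum
    linarith

end Pool.Agent.Results.MP_3550b5_nt.QuadraticTwists
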