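import Pool.Agent.Q221.PH.Card

/-!
# Schneider's conjecture: the valuations of the `p`-adic regulators in families

For the families of elliptic curves with sections of the library (`Family d r`): the members whose
`p`-adic regulator is not only different from zero, but of bounded valuation, for all primes `p` of a
growing range at once.
-/

set_option autoImplicit false

namespace Pool.Agent.Results.MP_3550b5_nt.RegulatorValuations

open Pool.Agent.Y732 Pool.Agent.Q221.PH Finset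

/-- For every canonical `p`-adic height `h` of the member of the family `F` at `v`, the regulator of
the `r` marked points `P 0 1, …, P 0 r` has norm larger than `p ^ (-j)` (that is, its valuation is
smaller than `j`), and if the rank of the group of rational points is `r`, then so has the `p`-adic
regulator of the curve: the determinant of the pairing on any family `c` of independent points
which generates the group of rational points modulo torsion. -/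
def ValuationBelow {d r : ℕ} (F : Family d r) (v : Fin d → ℤ) (j p : ℕ) [Fact p.Prime] : Prop :=
  ∀ h : (WQ (F.curve v)).Point → ℚ_[p], IsHeightW p (F.curve v) h →
    ((p : ℝ)⁻¹) ^ j < ‖Reg h (fun i : Fin r => F.P v 0 i.succ)‖ ∧
    (Module.finrank ℤ (WQ (F.curve v)).Point = r →
      ∀ (s : ℕ) (c : Fin s → (WQ (F.curve v)).Point), LinearIndependent ℤ c →
        (∀ Q, ∃ T, IsOfFinAddOrder T ∧ Q - T ∈ Submodule.span ℤ (Set.range c)) →
        ((p : ℝ)⁻¹) ^ j < ‖Reg h c‖)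

lemma sum_small (r M : ℕ) (hr : 0 < r) (S : Finset ℕ) (hS : ∀ p ∈ S, 5 ≤ p) {y : ℝ}
    (hy : 0 ≤ y) (hSy : ∀ p ∈ S, (p : ℝ) ≤ y) {N₀ : ℕ} (hN₀ : 0 < N₀) :
    ∑ p ∈ S, (p : ℝ) ^ 4 / ((min N₀ (p ^ (r * (M + 5) + r + 1)) : ℕ) : ℝ) ^ ((1 : ℝ) / r) ≤
      y ^ 5 / (N₀ : ℝ) ^ ((1 : ℝ) / r) + (1 / 5) ^ M := by
  have hN : (0 : ℝ) < (N₀ : ℝ) := by exact_mod_cast hN₀
  have hNr : (0 : ℝ) < (N₀ : ℝ) ^ ((1 : ℝ) / r) := Real.rpow_pos_of_pos hN _
  have hr0 : (r : ℝ) ≠ 0 := by exact_mod_cast hr.ne'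
  have h1 : ∀ p ∈ S, (p : ℝ) ^ 4 /
      ((min N₀ (p ^ (r * (M + 5) + r + 1)) : ℕ) : ℝ) ^ ((1 : ℝ) / r) ≤
      y ^ 4 / (N₀ : ℝ) ^ ((1 : ℝ) / r) + (1 / 5) ^ M * ((p : ℝ) ^ 2)⁻¹ := by
    intro p hp
    have hp5 : (5 : ℝ) ≤ p := by exact_mod_cast hS p hp
    have hp0 : (0 : ℝ) < p := by linarith
    have hpy := hSy p hp
    have t1 : (0 : ℝ) ≤ y ^ 4 / (N₀ : ℝ) ^ ((1 : ℝ) / r) := by positivity
    have t2 : (0 : ℝ) ≤ (1 / 5) ^ M * ((p : ℝ) ^ 2)⁻¹ := by positivity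
    rcases min_choice N₀ (p ^ (r * (M + 5) + r + 1)) with h | h
    · rw [h]
      have : (p : ℝ) ^ 4 / (N₀ : ℝ) ^ ((1 : ℝ) / r) ≤ y ^ 4 / (N₀ : ℝ) ^ ((1 : ℝ) / r) := by
        gcongr
      linarith
    · rw [h]
      have h2 : (p : ℝ) ^ (M + 6) ≤
          ((p ^ (r * (M + 5) + r + 1) : ℕ) : ℝ) ^ ((1 : ℝ) / r) := by
        have h3 : ((p : ℝ) ^ (M + 6)) ^ r ≤ ((p ^ (r * (M + 5) + r + 1) : ℕ) : ℝ) := by
          push_cast
          rw [← pow_mul]
          apply pow_le_pow_right₀ (by linarith)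
          nlinarith
        have h4 : (p : ℝ) ^ (M + 6) = (((p : ℝ) ^ (M + 6)) ^ r) ^ ((1 : ℝ) / r) := by
          rw [← Real.rpow_natCast ((p : ℝ) ^ (M + 6)) r, ← Real.rpow_mul (by positivity),
            mul_one_div_cancel hr0, Real.rpow_one]
        rw [h4]
        exact Real.rpow_le_rpow (by positivity) h3 (by positivity)
      have h5 : (p : ℝ) ^ 4 / ((p ^ (r * (M + 5) + r + 1) : ℕ) : ℝ) ^ ((1 : ℝ) / r) ≤
          (p : ℝ) ^ 4 / (p : ℝ) ^ (M + 6) := by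
        apply div_le_div_of_nonneg_left (by positivity) (by positivity) h2
      have h6 : (p : ℝ) ^ 4 / (p : ℝ) ^ (M + 6) = ((p : ℝ)⁻¹) ^ M * ((p : ℝ) ^ 2)⁻¹ := by
        rw [show M + 6 = M + 2 + 4 from rfl, pow_add _ (M + 2), pow_add _ M, inv_pow]
        field_simp
      have h7 : ((p : ℝ)⁻¹) ^ M ≤ (1 / 5) ^ M := by
        apply pow_le_pow_left₀ (by positivity)
        rw [one_div]
        exact inv_anti₀ (by norm_num) hp5
      have h8 : ((p : ℝ)⁻¹) ^ M * ((p : ℝ) ^ 2)⁻¹ ≤ (1 / 5) ^ M * ((p : ℝ) ^ 2)⁻¹ :=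
        mul_le_mul_of_nonneg_right h7 (by positivity)
      linarith
  refine (sum_le_sum h1).trans ?_
  rw [sum_add_distrib, ← mul_sum, sum_const, nsmul_eq_mul]
  have hsub : S ⊆ Finset.Ioc 4 ⌊y⌋₊ := by
    intro p hp
    rw [Finset.mem_Ioc]
    exact ⟨hS p hp, (Nat.le_floor_iff hy).2 (hSy p hp)⟩
  have hcard : (S.card : ℝ) ≤ y := by
    have h2 := card_le_card hsub
    rw [Nat.card_Ioc] at h2
    have h3 : S.card ≤ ⌊y⌋₊ := h2.trans (Nat.sub_le _ _)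
    have h4 : ((S.card : ℕ) : ℝ) ≤ (⌊y⌋₊ : ℝ) := by exact_mod_cast h3
    exact h4.trans (Nat.floor_le hy)
  have hsq : ∑ p ∈ S, ((p : ℝ) ^ 2)⁻¹ ≤ 1 := by
    rcases S.eq_empty_or_nonempty with h0 | ⟨q, hq⟩
    · rw [h0, sum_empty]
      exact zero_le_one
    have h2 : ∑ p ∈ S, ((p : ℝ) ^ 2)⁻¹ ≤ ∑ p ∈ Finset.Ioc 4 ⌊y⌋₊, ((p : ℝ) ^ 2)⁻¹ :=
      sum_le_sum_of_subset_of_nonneg hsub fun _ _ _ => by positivity
    have h4 : 4 ≤ ⌊y⌋₊ := by
      have := Finset.mem_Ioc.1 (hsub hq)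
      omega
    have h3 := sum_Ioc_inv_sq_le_sub (α := ℝ) (k := 4) (n := ⌊y⌋₊) (by norm_num) h4
    have h5 : (0 : ℝ) ≤ ((⌊y⌋₊ : ℕ) : ℝ)⁻¹ := by positivity
    push_cast at h3
    have : ((4 : ℝ))⁻¹ ≤ 1 := by norm_num
    linarith
  have a1 : (S.card : ℝ) * (y ^ 4 / (N₀ : ℝ) ^ ((1 : ℝ) / r)) ≤
      y ^ 5 / (N₀ : ℝ) ^ ((1 : ℝ) / r) := by
    calc (S.card : ℝ) * (y ^ 4 / (N₀ : ℝ) ^ ((1 : ℝ) / r)) ≤
        y * (y ^ 4 / (N₀ : ℝ) ^ ((1 : ℝ) / r)) :=
          mul_le_mul_of_nonneg_right hcard (by positivity)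
      _ = _ := by ring
  have a2 : (1 / 5 : ℝ) ^ M * ∑ p ∈ S, ((p : ℝ) ^ 2)⁻¹ ≤ (1 / 5) ^ M * 1 :=
    mul_le_mul_of_nonneg_left hsq (by positivity)
  linarith

open scoped Classical in
/-- Let `F` be a family of elliptic curves with `r ≥ 1` sections, in `d` parameters, such that the
height pairing `K` of the sections over the function field is nondegenerate.

1. Let `S` be a finite set of primes `p ≥ 5`, and let a level `j p` be given for each of them. In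
every box whose sides `N l` are at least `N₀ ≥ 1`, the number of the parameters `v` such that the
member at `v` is marked, and for some `p` in `S` ordinary at `p` with a `p`-adic regulator of
valuation at least `j p`, is at most
`2 ^ d r |det K| ∑_{p ∈ S} p ^ 4 / min(N₀, p ^ (j p + r + 1)) ^ (1 / r)` times the number of all
parameters in the box.

2. For every `ε > 0` there are a bound `J` and `δ > 0` with the following property. In every box whose
sides are at least `N₀ ≥ 1`, for all marked parameters except for at most `ε ∏ N l` parameters, the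
`p`-adic regulators have a valuation smaller than `J`, for all primes `5 ≤ p ≤ δ N₀ ^ (1 / (5 r))`
at which the member is ordinary at once. -/
theorem result :
    (∀ (d r : ℕ) (F : Family d r), 0 < r → F.K.det ≠ 0 →
      ∀ (S : Finset ℕ) (j : ℕ → ℕ), (∀ p ∈ S, p.Prime ∧ 5 ≤ p) →
      ∀ (c : Fin d → ℤ) (N : Fin d → ℕ) (N₀ : ℕ), 0 < N₀ → (∀ l, N₀ ≤ N l) →
        (((Fintype.piFinset fun l => Ico (c l) (c l + N l)).filter fun v => F.Marked v ∧
          ∃ p ∈ S, ∃ _ : Fact p.Prime,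
            IsOrdinaryW p (F.curve v) ∧ ¬ ValuationBelow F v (j p) p).card : ℝ) ≤
          2 ^ d * r * |(F.K.det : ℝ)| * (∑ p ∈ S, (p : ℝ) ^ 4 /
            ((min N₀ (p ^ (j p + r + 1)) : ℕ) : ℝ) ^ ((1 : ℝ) / r)) * ∏ l, (N l : ℝ)) ∧
    (∀ (d r : ℕ) (F : Family d r), 0 < r → F.K.det ≠ 0 → ∀ ε : ℝ, 0 < ε →
      ∃ (J : ℕ) (δ : ℝ), 0 < δ ∧
      ∀ (c : Fin d → ℤ) (N : Fin d → ℕ) (N₀ : ℕ), 0 < N₀ → (∀ l, N₀ ≤ N l) →
        (((Fintype.piFinset fun l => Ico (c l) (c l + N l)).filter fun v => F.Marked v ∧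
          ∃ p : ℕ, 5 ≤ p ∧ (p : ℝ) ≤ δ * (N₀ : ℝ) ^ ((1 : ℝ) / (5 * r)) ∧ ∃ _ : Fact p.Prime,
            IsOrdinaryW p (F.curve v) ∧ ¬ ValuationBelow F v J p).card : ℝ) ≤
          ε * ∏ l, (N l : ℝ)) := by
  refine ⟨?_, ?_⟩
  · intro d r F hr hK S j hS c N N₀ hN₀ hN
    apply big_card F hr hK S j hS c N N₀ hN₀ hN
    intro v hv
    rw [mem_filter, Fintype.mem_piFinset] at hv
    exact ⟨fun l => mem_Ico.1 (hv.1 l), hv.2⟩
  · intro d r F hr hK ε hε
    obtain ⟨C, hC⟩ : ∃ C : ℝ, C = 2 ^ d * r * |(F.K.det : ℝ)| := ⟨_, rfl⟩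
    have hK' : (0 : ℝ) < |(F.K.det : ℝ)| := abs_pos.2 (by exact_mod_cast hK)
    have hC0 : 0 < C := by
      rw [hC]
      positivity
    obtain ⟨M, hM⟩ := exists_pow_lt_of_lt_one (show 0 < ε / (2 * C) by positivity)
      (show (1 / 5 : ℝ) < 1 by norm_num)
    obtain ⟨δ, hδ, hδ5⟩ : ∃ δ : ℝ, 0 < δ ∧ δ ^ 5 ≤ ε / (2 * C) := by
      refine ⟨min 1 (ε / (2 * C)), lt_min one_pos (by positivity), ?_⟩
      have h1 : min 1 (ε / (2 * C)) ≤ 1 := min_le_left _ _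
      have h0 : 0 ≤ min 1 (ε / (2 * C)) := le_min zero_le_one (by positivity)
      exact (pow_le_of_le_one h0 h1 (by norm_num)).trans (min_le_right _ _)
    refine ⟨r * (M + 5), δ, hδ, ?_⟩
    intro c N N₀ hN₀ hN
    have hN0 : (0 : ℝ) < (N₀ : ℝ) := by exact_mod_cast hN₀
    obtain ⟨y, hy⟩ : ∃ y : ℝ, y = δ * (N₀ : ℝ) ^ ((1 : ℝ) / (5 * r)) := ⟨_, rfl⟩
    have hy0 : 0 ≤ y := by
      rw [hy]
      positivity
    obtain ⟨S, hSdef⟩ : ∃ S : Finset ℕ, S = (Finset.range (⌊y⌋₊ + 1)).filter fun p =>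
      p.Prime ∧ 5 ≤ p := ⟨_, rfl⟩
    have hS : ∀ p ∈ S, p.Prime ∧ 5 ≤ p := by
      intro p hp
      rw [hSdef, mem_filter] at hp
      exact hp.2
    have hSy : ∀ p ∈ S, (p : ℝ) ≤ y := by
      intro p hp
      rw [hSdef, mem_filter, mem_range] at hp
      exact (Nat.le_floor_iff hy0).1 (by omega)
    have key := big_card F hr hK S (fun _ => r * (M + 5)) hS c N N₀ hN₀ hN
      ((Fintype.piFinset fun l => Ico (c l) (c l + N l)).filter fun v => F.Marked v ∧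
          ∃ p : ℕ, 5 ≤ p ∧ (p : ℝ) ≤ δ * (N₀ : ℝ) ^ ((1 : ℝ) / (5 * r)) ∧ ∃ _ : Fact p.Prime,
            IsOrdinaryW p (F.curve v) ∧ ¬ ValuationBelow F v (r * (M + 5)) p) (by
        intro v hv
        rw [mem_filter, Fintype.mem_piFinset] at hv
        obtain ⟨hb, hm, p, hp5, hpy, hp, ho, hn⟩ := hv
        refine ⟨fun l => mem_Ico.1 (hb l), hm, p, ?_, hp, ho, hn⟩
        rw [hSdef, mem_filter, mem_range]
        rw [← hy] at hpy
        exact ⟨Nat.lt_succ_of_le ((Nat.le_floor_iff hy0).2 hpy), hp.out, hp5⟩)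
    refine key.trans ?_
    have hsum := sum_small r M hr S (fun p hp => (hS p hp).2) hy0 hSy hN₀
    have hyN : y ^ 5 / (N₀ : ℝ) ^ ((1 : ℝ) / r) = δ ^ 5 := by
      have h1 : ((N₀ : ℝ) ^ ((1 : ℝ) / (5 * r))) ^ 5 = (N₀ : ℝ) ^ ((1 : ℝ) / r) := by
        rw [← Real.rpow_natCast ((N₀ : ℝ) ^ ((1 : ℝ) / (5 * r))) 5, ← Real.rpow_mul hN0.le]
        congr 1
        have : (r : ℝ) ≠ 0 := by exact_mod_cast hr.ne'
        push_cast
        field_simp
      rw [hy, mul_pow, h1]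
      have h2 : (N₀ : ℝ) ^ ((1 : ℝ) / r) ≠ 0 := (Real.rpow_pos_of_pos hN0 _).ne'
      field_simp
    rw [hyN] at hsum
    have hprod : (0 : ℝ) ≤ ∏ l, (N l : ℝ) := prod_nonneg fun _ _ => Nat.cast_nonneg _
    apply mul_le_mul_of_nonneg_right _ hprod
    rw [← hC]
    have h3 : C * (∑ p ∈ S, (p : ℝ) ^ 4 /
        ((min N₀ (p ^ (r * (M + 5) + r + 1)) : ℕ) : ℝ) ^ ((1 : ℝ) / r)) ≤
        C * (δ ^ 5 + (1 / 5) ^ M) := mul_le_mul_of_nonneg_left hsum hC0.le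
    refine h3.trans ?_
    have h4 : δ ^ 5 + (1 / 5) ^ M ≤ ε / C := by
      have : ε / C = ε / (2 * C) + ε / (2 * C) := by field_simp; ring
      rw [this]
      exact add_le_add hδ5 hM.le
    calc C * (δ ^ 5 + (1 / 5) ^ M) ≤ C * (ε / C) := mul_le_mul_of_nonneg_left h4 hC0.le
      _ = ε := by field_simp

end Pool.Agent.Results.MP_3550b5_nt.RegulatorValuations
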